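import Pool.Agent.W345.GK.Cl2

set_option autoImplicit false

open Polynomial Finset
open Pool.Agent.W345.GK

namespace Pool.Agent.W409.GK

theorem int_closed {k Fc : Type} [Field k] [Field Fc] [Algebra k[X] Fc]
    (hinj : Function.Injective (algebraMap k[X] Fc)) (y : Fc) (a b : k[X]) (hb : b ≠ 0)
    (h : y * algebraMap k[X] Fc b = algebraMap k[X] Fc a) (hy : IsIntegral k[X] y) :
    ∃ g : k[X], algebraMap k[X] Fc g = y := by
  let φ : FractionRing k[X] →ₐ[k[X]] Fc :=
    IsFractionRing.liftAlgHom (g := Algebra.ofId k[X] Fc) hinj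
  have hb' : algebraMap k[X] Fc b ≠ 0 := by
    rw [Ne, map_eq_zero_iff _ hinj]
    exact hb
  have hx : φ (algebraMap k[X] (FractionRing k[X]) a / algebraMap k[X] (FractionRing k[X]) b) =
      y := by
    rw [map_div₀, AlgHom.commutes, AlgHom.commutes, ← h, mul_div_cancel_right₀ _ hb']
  have hint : IsIntegral k[X]
      (algebraMap k[X] (FractionRing k[X]) a / algebraMap k[X] (FractionRing k[X]) b) := by
    apply (isIntegral_algHom_iff φ φ.toRingHom.injective).1
    rw [hx]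
    exact hy
  obtain ⟨g, hg⟩ := IsIntegrallyClosed.isIntegral_iff.1 hint
  refine ⟨g, ?_⟩
  rw [← hx, ← hg, AlgHom.commutes]

theorem exists_pol {k : Type} [Field k] (P : k[X]) (hP : P.Monic) (a : k[X]) :
    ∃ b : Fin P.natDegree → k, P ∣ a - pol b := by
  by_cases h1 : P = 1
  · refine ⟨0, ?_⟩
    rw [h1]
    exact one_dvd _
  refine ⟨fun i => (a %ₘ P).coeff i, ?_⟩
  have hdeg : (a %ₘ P).natDegree < P.natDegree := natDegree_modByMonic_lt a hP h1
  have h2 : pol (fun i : Fin P.natDegree => (a %ₘ P).coeff i) = a %ₘ P := by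
    unfold pol
    rw [Fin.sum_univ_eq_sum_range (fun i => C ((a %ₘ P).coeff i) * X ^ i)]
    exact (as_sum_range_C_mul_X_pow' (a %ₘ P) hdeg).symm
  rw [h2]
  refine ⟨a /ₘ P, ?_⟩
  have := modByMonic_add_div a P
  linear_combination -this

theorem finGal {k Fc : Type} [Field k] [Fintype k] [Field Fc] [Algebra k[X] Fc] {P : k[X]}
    (c : CycD k Fc P) (hP : P.Monic) : Finite (Fc ≃ₐ[k[X]] Fc) := by
  apply Finite.of_surjective (fun b : Fin P.natDegree → k => c.sg (pol b))
  intro σ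
  obtain ⟨a, ha, hσ⟩ := c.sg_surj σ
  obtain ⟨b, hb⟩ := exists_pol P hP a
  exact ⟨b, by rw [hσ]; exact (c.sg_mod a (pol b) ha hb).symm⟩

noncomputable def Nm {k Fc : Type} [Field k] [Field Fc] [Algebra k[X] Fc]
    [Fintype (Fc ≃ₐ[k[X]] Fc)] (y : Fc) : Fc :=
  ∏ σ : Fc ≃ₐ[k[X]] Fc, σ y

section
variable {k Fc : Type} [Field k] [Fintype k] [Field Fc] [Algebra k[X] Fc]
  [Fintype (Fc ≃ₐ[k[X]] Fc)]

theorem nm_fixed (τ : Fc ≃ₐ[k[X]] Fc) (y : Fc) : τ (Nm (k := k) y) = Nm (k := k) y := by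
  unfold Nm
  rw [map_prod]
  exact Fintype.prod_equiv (Equiv.mulLeft τ) _ _ (fun σ => rfl)

theorem nm_int {y : Fc} (hy : IsIntegral k[X] y) : IsIntegral k[X] (Nm (k := k) y) := by
  unfold Nm
  apply IsIntegral.prod
  intro σ _
  exact hy.map (σ : Fc →ₐ[k[X]] Fc)

theorem nm_mem {P : k[X]} (c : CycD k Fc P) {y : Fc} (hy : IsIntegral k[X] y) :
    ∃ g : k[X], algebraMap k[X] Fc g = Nm (k := k) y := by
  obtain ⟨a, b, hb, h⟩ := c.fixed (Nm (k := k) y) (fun a _ => nm_fixed _ _)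
  exact int_closed c.inj _ a b hb h (nm_int hy)

theorem nm_mul (y z : Fc) : Nm (k := k) (y * z) = Nm (k := k) y * Nm (k := k) z := by
  unfold Nm
  rw [← Finset.prod_mul_distrib]
  exact Finset.prod_congr rfl fun σ _ => map_mul σ y z

theorem nm_zpow (y : Fc) (m : ℤ) : Nm (k := k) (y ^ m) = Nm (k := k) y ^ m := by
  unfold Nm
  rw [← Finset.prod_zpow]
  exact Finset.prod_congr rfl fun σ _ => map_zpow₀ σ y m

theorem nm_inv (y : Fc) : Nm (k := k) (y⁻¹) = (Nm (k := k) y)⁻¹ := by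
  have := nm_zpow (k := k) y (-1)
  rwa [zpow_neg_one, zpow_neg_one] at this

theorem nm_ne {y : Fc} (hy : y ≠ 0) : Nm (k := k) y ≠ 0 := by
  unfold Nm
  rw [Finset.prod_ne_zero_iff]
  intro σ _
  exact (map_ne_zero_iff σ σ.injective).2 hy

end

theorem order_prod {F : Type} [Field F] {ι : Type} (s : Finset ι) (g : ι → LS F)
    (h : ∀ i ∈ s, g i ≠ 0) : (∏ i ∈ s, g i).order = ∑ i ∈ s, (g i).order := by
  classical
  induction s using Finset.induction_on with
  | empty => simp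
  | insert a s ha ih =>
    rw [Finset.prod_insert ha, Finset.sum_insert ha, HahnSeries.order_mul, ih]
    · exact fun i hi => h i (Finset.mem_insert_of_mem hi)
    · exact h a (Finset.mem_insert_self _ _)
    · rw [Finset.prod_ne_zero_iff]
      exact fun i hi => h i (Finset.mem_insert_of_mem hi)

theorem order_npow {F : Type} [Field F] (z : LS F) (hz : z ≠ 0) (n : ℕ) :
    (z ^ n).order = n * z.order := by
  have := order_prod (Finset.range n) (fun _ => z) (fun _ _ => hz)
  rw [Finset.prod_const, Finset.sum_const, Finset.card_range] at this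
  rw [this, nsmul_eq_mul]

theorem order_zpow {F : Type} [Field F] (z : LS F) (hz : z ≠ 0) (m : ℤ) :
    (z ^ m).order = m * z.order := by
  rcases Int.eq_nat_or_neg m with ⟨n, rfl | rfl⟩
  · rw [zpow_natCast]
    exact order_npow z hz n
  · have h1 : z ^ (-(n : ℤ)) * z ^ n = 1 := by
      rw [← zpow_natCast, ← zpow_add₀ hz, neg_add_cancel, zpow_zero]
    have h2 := congrArg HahnSeries.order h1
    rw [HahnSeries.order_mul (zpow_ne_zero _ hz) (pow_ne_zero _ hz), order_npow z hz,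
      HahnSeries.order_one] at h2
    linarith

theorem iA_order (hI : S_I1) {k F : Type} [Field k] [Fintype k] [Field F] [Algebra k F]
    (g : k[X]) (hg : g ≠ 0) : (iA g : LS F).order = -(((Fintype.card k : ℤ) - 1) * g.natDegree) := by
  obtain ⟨-, h2, -⟩ := hI k F
  have h3 : (g.map (algebraMap k F)) ≠ 0 := (Polynomial.map_ne_zero_iff (algebraMap k F).injective).2 hg
  have h4 := h2 _ h3
  rw [natDegree_map_eq_of_injective (algebraMap k F).injective] at h4
  exact h4

theorem iA_C {k F : Type} [Field k] [Fintype k] [Field F] [Algebra k F] (a : k) :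
    (iA (C a : k[X]) : LS F) = HahnSeries.C (algebraMap k F a) := by
  unfold iA iF
  rw [RingHom.comp_apply, coe_mapRingHom, map_C]
  change aeval (TT F (Fintype.card k)) (C (algebraMap k F a)) = _
  rw [aeval_C, LaurentSeries.algebraMap_apply]

theorem unk (hI : S_I1) (hC1 : S_C1) (hC2 : S_C2) (hL : S_LAU) : S_UNK := by
  intro k F Fc _ _ _ _ _ _ P c Lam ι hP hPi hLam hι f u m hu0 hu hui hf hord
  classical
  have : Finite (Fc ≃ₐ[k[X]] Fc) := finGal c hP
  let _ : Fintype (Fc ≃ₐ[k[X]] Fc) := Fintype.ofFinite _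
  have hιinj : Function.Injective ι := ι.injective
  have hP1 : ¬ P ∣ 1 := fun h => hPi.not_isUnit (isUnit_of_dvd_one h)
  obtain ⟨-, hl, hl0, -, -⟩ := hL k Fc P c hP hPi 1 hP1
  have hq2 : 1 < Fintype.card k := Fintype.one_lt_card
  have hf0 : f ≠ 0 := by
    rw [hf]
    exact mul_ne_zero (zpow_ne_zero _ hl0) hu0
  have hordσ : ∀ σ : Fc ≃ₐ[k[X]] Fc, (ι (σ f)).order = 0 := by
    intro σ
    obtain ⟨a, ha, rfl⟩ := c.sg_surj σ
    exact hord a ha
  -- the norm of an integral element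
  have hnorm : ∀ y : Fc, y ≠ 0 → IsIntegral k[X] y → ∃ g : k[X], g ≠ 0 ∧
      algebraMap k[X] Fc g = Nm (k := k) y ∧
      ∑ σ : Fc ≃ₐ[k[X]] Fc, (ι (σ y)).order = -(((Fintype.card k : ℤ) - 1) * g.natDegree) := by
    intro y hy0 hy
    obtain ⟨g, hg⟩ := nm_mem c hy
    have hg0 : g ≠ 0 := by
      rintro rfl
      rw [map_zero] at hg
      exact nm_ne hy0 hg.symm
    refine ⟨g, hg0, hg, ?_⟩
    rw [← iA_order hI (F := F) g hg0, ← hι.base g, hg]
    unfold Nm
    rw [map_prod, order_prod]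
    intro σ _
    exact (map_ne_zero_iff ι hιinj).2 ((map_ne_zero_iff σ σ.injective).2 hy0)
  -- the norm of `lam 1`
  obtain ⟨g, hg0, hg, hgo⟩ := hnorm _ hl0 hl
  have hgdeg : g.natDegree ≠ 0 := by
    intro hd
    obtain ⟨a, ha⟩ := natDegree_eq_zero.1 hd
    have ha0 : a ≠ 0 := by
      rintro rfl
      rw [C_0] at ha
      exact hg0 ha.symm
    -- `lam 1` is a unit
    have hli : IsIntegral k[X] (c.lam 1)⁻¹ := by
      have h1 : Nm (k := k) (c.lam 1) = c.lam 1 * ∏ σ ∈ univ.erase (1 : Fc ≃ₐ[k[X]] Fc),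
          σ (c.lam 1) := by
        unfold Nm
        rw [← Finset.mul_prod_erase univ _ (Finset.mem_univ (1 : Fc ≃ₐ[k[X]] Fc))]
        rfl
      have h2 : algebraMap k[X] Fc (C a⁻¹) * Nm (k := k) (c.lam 1) = 1 := by
        rw [← hg, ← ha, ← map_mul, ← C_mul, inv_mul_cancel₀ ha0, C_1, map_one]
      have h3 : (c.lam 1)⁻¹ = algebraMap k[X] Fc (C a⁻¹) *
          ∏ σ ∈ univ.erase (1 : Fc ≃ₐ[k[X]] Fc), σ (c.lam 1) := by
        rw [h1] at h2
        apply inv_eq_of_mul_eq_one_right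
        linear_combination h2
      rw [h3]
      apply IsIntegral.mul isIntegral_algebraMap
      apply IsIntegral.prod
      intro σ _
      exact hl.map (σ : Fc →ₐ[k[X]] Fc)
    -- the equation of `lam 1`
    have hroot : aeval (c.lam 1) (car P) = 0 := (c.roots (c.lam 1)).2 ⟨1, rfl⟩
    obtain ⟨k1, -, -, k4, -⟩ := hC1 k
    rw [k1 P, Finset.sum_range_succ, k4 P hP, map_add, map_sum] at hroot
    have hdiv : ∀ i, ∃ z : k[X], i < P.natDegree → br P i = P * z := by
      intro i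
      by_cases hi : i < P.natDegree
      · obtain ⟨z, hz⟩ := hC2 k P hP hPi i hi
        exact ⟨z, fun _ => hz⟩
      · exact ⟨0, fun h => absurd h hi⟩
    choose z hz using hdiv
    have hsum : (∑ i ∈ range P.natDegree, aeval (c.lam 1) (C (br P i) *
        X ^ (Fintype.card k ^ i) : (k[X])[X])) = algebraMap k[X] Fc P *
        ∑ i ∈ range P.natDegree, algebraMap k[X] Fc (z i) * (c.lam 1) ^ (Fintype.card k ^ i) := by
      rw [Finset.mul_sum]
      apply Finset.sum_congr rfl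
      intro i hi
      rw [map_mul, aeval_C, map_pow, aeval_X, hz i (Finset.mem_range.1 hi), map_mul]
      ring
    rw [hsum, map_mul, aeval_C, map_one, one_mul, map_pow, aeval_X] at hroot
    have hPF : algebraMap k[X] Fc P ≠ 0 := by
      rw [Ne, map_eq_zero_iff _ c.inj]
      exact hP.ne_zero
    have hPinv : (algebraMap k[X] Fc P)⁻¹ = - ((∑ i ∈ range P.natDegree,
        algebraMap k[X] Fc (z i) * (c.lam 1) ^ (Fintype.card k ^ i)) *
        ((c.lam 1)⁻¹) ^ (Fintype.card k ^ P.natDegree)) := by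
      apply inv_eq_of_mul_eq_one_right
      have h5 : (c.lam 1) ^ (Fintype.card k ^ P.natDegree) *
          ((c.lam 1)⁻¹) ^ (Fintype.card k ^ P.natDegree) = 1 := by
        rw [← mul_pow, mul_inv_cancel₀ hl0, one_pow]
      linear_combination h5 - ((c.lam 1)⁻¹) ^ (Fintype.card k ^ P.natDegree) * hroot
    have hPint : IsIntegral k[X] (algebraMap k[X] Fc P)⁻¹ := by
      rw [hPinv]
      apply IsIntegral.neg
      apply IsIntegral.mul _ (hli.pow _)
      apply IsIntegral.sum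
      intro i _
      exact isIntegral_algebraMap.mul (hl.pow _)
    obtain ⟨w, hw⟩ := int_closed c.inj (algebraMap k[X] Fc P)⁻¹ 1 P hP.ne_zero
      (by rw [inv_mul_cancel₀ hPF, map_one]) hPint
    apply hP1
    refine ⟨w, c.inj ?_⟩
    rw [map_mul, hw, mul_inv_cancel₀ hPF, map_one]
  -- the norm of `u`
  obtain ⟨v, hv0, hv, hvo⟩ := hnorm u hu0 hu
  obtain ⟨v', hv'0, hv', -⟩ := hnorm u⁻¹ (inv_ne_zero hu0) hui
  have hvdeg : v.natDegree = 0 := by
    have h1 : v * v' = 1 := by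
      apply c.inj
      rw [map_mul, hv, hv', nm_inv, map_one, mul_inv_cancel₀ (nm_ne hu0)]
    have h2 := congrArg natDegree h1
    rw [natDegree_mul hv0 hv'0, natDegree_one] at h2
    omega
  -- `m = 0`
  have hm : m = 0 := by
    have h1 : ∀ σ : Fc ≃ₐ[k[X]] Fc, (ι (σ f)).order =
        m * (ι (σ (c.lam 1))).order + (ι (σ u)).order := by
      intro σ
      have h2 : ι (σ (c.lam 1)) ≠ 0 :=
        (map_ne_zero_iff ι hιinj).2 ((map_ne_zero_iff σ σ.injective).2 hl0)
      have h3 : ι (σ u) ≠ 0 :=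
        (map_ne_zero_iff ι hιinj).2 ((map_ne_zero_iff σ σ.injective).2 hu0)
      rw [hf, map_mul, map_mul, map_zpow₀, map_zpow₀, HahnSeries.order_mul (zpow_ne_zero _ h2) h3,
        order_zpow _ h2]
    have h4 : ∑ σ : Fc ≃ₐ[k[X]] Fc, (ι (σ f)).order = 0 :=
      Finset.sum_eq_zero fun σ _ => hordσ σ
    rw [Finset.sum_congr rfl (fun σ _ => h1 σ), Finset.sum_add_distrib, ← Finset.mul_sum, hgo,
      hvo, hvdeg] at h4
    have h5 : m * (((Fintype.card k : ℤ) - 1) * g.natDegree) = 0 := by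
      push_cast at h4
      linarith
    rcases mul_eq_zero.1 h5 with h6 | h6
    · exact h6
    · exfalso
      rcases mul_eq_zero.1 h6 with h7 | h7
      · omega
      · exact hgdeg (by exact_mod_cast h7)
  rw [hm, zpow_zero, one_mul] at hf
  -- the constant term
  obtain ⟨a, ha⟩ := hι.rat f 0
  have hof : (ι f).order = 0 := hordσ 1
  have hιf0 : ι f ≠ 0 := (map_ne_zero_iff ι hιinj).2 hf0
  have ha0 : a ≠ 0 := by
    rintro rfl
    rw [map_zero] at ha
    have := (mt HahnSeries.coeff_order_eq_zero.1 hιf0)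
    rw [hof] at this
    exact this ha.symm
  have hkey : f = algebraMap k[X] Fc (C a) := by
    by_contra hne
    have hy0 : f - algebraMap k[X] Fc (C a) ≠ 0 := sub_ne_zero.2 hne
    have hyint : IsIntegral k[X] (f - algebraMap k[X] Fc (C a)) := by
      rw [hf]
      exact hu.sub isIntegral_algebraMap
    obtain ⟨w, hw0, -, hwo⟩ := hnorm _ hy0 hyint
    have hcoef : ∀ (σ : Fc ≃ₐ[k[X]] Fc) (j : ℤ), j < 0 →
        (ι (σ (f - algebraMap k[X] Fc (C a)))).coeff j = 0 := by
      intro σ j hj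
      rw [map_sub, map_sub, AlgEquiv.commutes, hι.base, iA_C, HahnSeries.coeff_sub,
        HahnSeries.coeff_eq_zero_of_lt_order (by rw [hordσ σ]; exact hj)]
      rw [HahnSeries.C_apply, HahnSeries.coeff_single_of_ne hj.ne, sub_zero]
    have hge : ∀ σ : Fc ≃ₐ[k[X]] Fc, 0 ≤ (ι (σ (f - algebraMap k[X] Fc (C a)))).order := by
      intro σ
      by_contra hlt
      have h1 : ι (σ (f - algebraMap k[X] Fc (C a))) ≠ 0 :=
        (map_ne_zero_iff ι hιinj).2 ((map_ne_zero_iff σ σ.injective).2 hy0)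
      exact h1 (HahnSeries.coeff_order_eq_zero.1 (hcoef σ _ (not_le.1 hlt)))
    have hgt : 0 < (ι ((1 : Fc ≃ₐ[k[X]] Fc) (f - algebraMap k[X] Fc (C a)))).order := by
      rcases lt_or_eq_of_le (hge 1) with h1 | h1
      · exact h1
      · exfalso
        have h2 : ι ((1 : Fc ≃ₐ[k[X]] Fc) (f - algebraMap k[X] Fc (C a))) ≠ 0 :=
          (map_ne_zero_iff ι hιinj).2 ((map_ne_zero_iff _ (1 : Fc ≃ₐ[k[X]] Fc).injective).2 hy0)
        have h3 := mt HahnSeries.coeff_order_eq_zero.1 h2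
        rw [← h1] at h3
        apply h3
        rw [AlgEquiv.one_apply, map_sub, hι.base, iA_C, HahnSeries.coeff_sub, ← ha,
          HahnSeries.C_apply, HahnSeries.coeff_single_same, sub_self]
    have hpos : 0 < ∑ σ : Fc ≃ₐ[k[X]] Fc,
        (ι (σ (f - algebraMap k[X] Fc (C a)))).order :=
      Finset.sum_pos' (fun σ _ => hge σ) ⟨1, Finset.mem_univ _, hgt⟩
    rw [hwo] at hpos
    have h9 : (0 : ℤ) ≤ ((Fintype.card k : ℤ) - 1) * w.natDegree := by
      apply mul_nonneg
      · omega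
      · exact Int.natCast_nonneg _
    omega
  rw [hkey, ← map_pow, ← C_pow, FiniteField.pow_card_sub_one_eq_one a ha0, C_1, map_one]

end Pool.Agent.W409.GK
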